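import Mathlib

/-!
Helper file: a concrete idempotent semiring `S` (sets of elements of a monoid) and a sequence
`g n = mu ^ n * v` in it which separates guessable from strongly guessable functions.
-/

open scoped Pointwise

namespace Pool.Agent.H94.Wa

/-- The successor map as an element of the monoid of self-maps. -/
def sc : Function.End ℕ := fun n => n + 1

/-- The constant map with value `n` as an element of the monoid of self-maps. -/
def cn (n : ℕ) : Function.End ℕ := fun _ => n

/-- The map sending `n ≤ k` to `n + 2` and everything else to `0`. -/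
def aa (k : ℕ) : Function.End ℕ := fun n => if n ≤ k then n + 2 else 0

/-- A submonoid of `(ℕ, +) × (ℕ → ℕ, ∘)`: degree zero forces the identity, degree one forces the
successor map. -/
def Mon : Submonoid (Multiplicative ℕ × Function.End ℕ) where
  carrier := {p | (p.1.toAdd = 0 → p.2 = 1) ∧ (p.1.toAdd = 1 → p.2 = sc)}
  one_mem' := by
    refine ⟨fun _ => rfl, fun h => ?_⟩
    simp at h
  mul_mem' := by
    rintro ⟨a, g⟩ ⟨b, h⟩ ⟨ha0, ha1⟩ ⟨hb0, hb1⟩
    refine ⟨fun hab => ?_, fun hab => ?_⟩
    · have hab' : a.toAdd + b.toAdd = 0 := hab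
      have h1 : a.toAdd = 0 := by omega
      have h2 : b.toAdd = 0 := by omega
      have e1 : g = 1 := ha0 h1
      have e2 : h = 1 := hb0 h2
      show g * h = 1
      rw [e1, e2, one_mul]
    · have hab' : a.toAdd + b.toAdd = 1 := hab
      show g * h = sc
      rcases Nat.eq_zero_or_pos a.toAdd with h1 | h1
      · have h2 : b.toAdd = 1 := by omega
        have e1 : g = 1 := ha0 h1
        have e2 : h = sc := hb1 h2
        rw [e1, e2, one_mul]
      · have h1' : a.toAdd = 1 := by omega
        have h2 : b.toAdd = 0 := by omega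
        have e1 : g = sc := ha1 h1'
        have e2 : h = 1 := hb0 h2
        rw [e1, e2, mul_one]

/-- The semiring: sets of elements of `Mon`, union as addition, elementwise product. -/
abbrev S : Type := SetSemiring Mon

/-- The transition element. -/
def mu : Mon := ⟨(Multiplicative.ofAdd 1, sc), ⟨fun h => by simp at h, fun _ => rfl⟩⟩

/-- The final element. -/
def v : Mon := ⟨(Multiplicative.ofAdd 2, cn 0),
  ⟨fun h => by simp at h, fun h => by simp at h⟩⟩

/-- The elements `alpha k`, which act as `mu ^ 2` only on `mu ^ n * v` with `n ≤ k`. -/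
def al (k : ℕ) : Mon :=
  ⟨(Multiplicative.ofAdd 2, aa k), ⟨fun h => by simp at h, fun h => by simp at h⟩⟩

/-- The sequence `mu ^ n * v` in the semiring. -/
noncomputable def g (n : ℕ) : S := Set.up ({mu ^ n * v} : Set Mon)

theorem mu_pow_v (n : ℕ) : ((mu ^ n * v : Mon) : Multiplicative ℕ × Function.End ℕ) =
    (Multiplicative.ofAdd (n + 2), cn n) := by
  induction n with
  | zero =>
    rw [pow_zero, one_mul]
    rfl
  | succ n ih =>
    have : (mu ^ (n + 1) * v : Mon) = mu * (mu ^ n * v) := by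
      rw [pow_succ', mul_assoc]
    rw [this, Submonoid.coe_mul, ih]
    refine Prod.ext ?_ ?_
    · show Multiplicative.ofAdd 1 * Multiplicative.ofAdd (n + 2) = Multiplicative.ofAdd (n + 1 + 2)
      rw [← ofAdd_add]
      congr 1
      omega
    · funext x
      rfl

theorem mul_g_eq (l : S) (n m : ℕ) :
    l * g n = g m ↔ ((∃ x, x ∈ l.down) ∧ ∀ x ∈ l.down, x * (mu ^ n * v) = mu ^ m * v) := by
  constructor
  · intro h
    have h' : (l * g n).down = (g m).down := congrArg _ h
    rw [SetSemiring.down_mul] at h'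
    have e1 : (g n).down = {mu ^ n * v} := rfl
    have e2 : (g m).down = {mu ^ m * v} := rfl
    rw [e1, e2] at h'
    constructor
    · have : (mu ^ m * v) ∈ l.down * ({mu ^ n * v} : Set Mon) := by
        rw [h']; rfl
      obtain ⟨x, hx, _⟩ := Set.mem_mul.1 this
      exact ⟨x, hx⟩
    · intro x hx
      have : x * (mu ^ n * v) ∈ l.down * ({mu ^ n * v} : Set Mon) :=
        Set.mul_mem_mul hx rfl
      rw [h'] at this
      exact this
  · rintro ⟨⟨x, hx⟩, h⟩
    apply SetSemiring.down.injective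
    rw [SetSemiring.down_mul]
    have e1 : (g n).down = {mu ^ n * v} := rfl
    have e2 : (g m).down = {mu ^ m * v} := rfl
    rw [e1, e2]
    ext y
    constructor
    · intro hy
      obtain ⟨a, ha, b, hb, rfl⟩ := Set.mem_mul.1 hy
      have hb' : b = mu ^ n * v := hb
      rw [hb', h a ha]
      rfl
    · intro hy
      have hy' : y = mu ^ m * v := hy
      rw [hy', ← h x hx]
      exact Set.mul_mem_mul hx rfl

theorem deg_mul (x y : Mon) : (x * y : Mon).1.1.toAdd = x.1.1.toAdd + y.1.1.toAdd := rfl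

theorem deg_pow_v (n : ℕ) : (mu ^ n * v : Mon).1.1.toAdd = n + 2 := by
  rw [mu_pow_v]
  rfl

theorem eq_one_of_mul (x : Mon) (h : x * (mu ^ 0 * v) = mu ^ 0 * v) : x = 1 := by
  have h1 := congrArg (fun y : Mon => y.1.1.toAdd) h
  simp only [deg_mul x, deg_pow_v] at h1
  have h2 : x.1.1.toAdd = 0 := by omega
  have h3 := x.2.1 h2
  apply Subtype.ext
  exact Prod.ext h2 h3

theorem eq_mu_of_mul (x : Mon) (h : x * (mu ^ 0 * v) = mu ^ 1 * v) : x = mu := by
  have h1 := congrArg (fun y : Mon => y.1.1.toAdd) h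
  simp only [deg_mul x, deg_pow_v] at h1
  have h2 : x.1.1.toAdd = 1 := by omega
  have h3 := x.2.2 h2
  apply Subtype.ext
  exact Prod.ext h2 h3

/-- Property 1: a scalar fixing `g 0` fixes every `g n`. -/
theorem P1 (l : S) (h : l * g 0 = g 0) (n : ℕ) : l * g n = g n := by
  rw [mul_g_eq] at h ⊢
  refine ⟨h.1, fun x hx => ?_⟩
  rw [eq_one_of_mul x (h.2 x hx), one_mul]

/-- Property 2: a scalar moving `g 0` to `g 1` moves every `g n` to `g (n+1)`. -/
theorem P2 (l : S) (h : l * g 0 = g 1) (n : ℕ) : l * g n = g (n + 1) := by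
  rw [mul_g_eq] at h ⊢
  refine ⟨h.1, fun x hx => ?_⟩
  rw [eq_mu_of_mul x (h.2 x hx), ← mul_assoc, ← pow_succ']

theorem al_mul (k n : ℕ) (h : n ≤ k) : al k * (mu ^ n * v) = mu ^ (n + 2) * v := by
  apply Subtype.ext
  rw [Submonoid.coe_mul, mu_pow_v, mu_pow_v]
  refine Prod.ext ?_ ?_
  · show Multiplicative.ofAdd 2 * Multiplicative.ofAdd (n + 2) = Multiplicative.ofAdd (n + 2 + 2)
    rw [← ofAdd_add]
    congr 1
    omega
  · funext x
    show (if n ≤ k then n + 2 else 0) = n + 2
    rw [if_pos h]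

theorem al_mul_ne (k : ℕ) : al k * (mu ^ (k + 1) * v) ≠ mu ^ (k + 1 + 2) * v := by
  intro h
  have h1 := congrArg (fun y : Mon => y.1.2) h
  simp only [Submonoid.coe_mul] at h1
  have h3 : (al k : Multiplicative ℕ × Function.End ℕ).2 * cn (k + 1) = cn (k + 1 + 2) := by
    have e1 : (mu ^ (k + 1) * v : Mon).1.2 = cn (k + 1) := by rw [mu_pow_v]
    have e2 : (mu ^ (k + 1 + 2) * v : Mon).1.2 = cn (k + 1 + 2) := by rw [mu_pow_v]
    rw [← e1, ← e2]
    exact h1
  have h4 : (if k + 1 ≤ k then k + 1 + 2 else 0) = k + 1 + 2 := congrFun h3 0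
  rw [if_neg (by omega)] at h4
  omega

/-- Property 3: for every `k` some scalar moves `g n` to `g (n+2)` for `n ≤ k` but not for
`n = k + 1`. -/
theorem P3 (k : ℕ) : ∃ l : S, (∀ n ≤ k, l * g n = g (n + 2)) ∧ l * g (k + 1) ≠ g (k + 1 + 2) := by
  refine ⟨Set.up ({al k} : Set Mon), fun n hn => ?_, fun h => ?_⟩
  · rw [mul_g_eq]
    refine ⟨⟨al k, rfl⟩, fun x hx => ?_⟩
    have hx' : x = al k := hx
    rw [hx', al_mul k n hn]
  · rw [mul_g_eq] at h
    exact al_mul_ne k (h.2 (al k) rfl)

/-- Property 4: `g` is a geometric sequence. -/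
theorem P4 : ∃ a b : S, ∀ n, g n = a ^ n * b := by
  refine ⟨Set.up ({mu} : Set Mon), Set.up ({v} : Set Mon), fun n => ?_⟩
  induction n with
  | zero =>
    rw [pow_zero, one_mul]
    show Set.up ({mu ^ 0 * v} : Set Mon) = _
    rw [pow_zero, one_mul]
  | succ n ih =>
    rw [pow_succ', mul_assoc, ← ih]
    have : (Set.up ({mu} : Set Mon) : S) * g n = g (n + 1) := by
      rw [mul_g_eq]
      refine ⟨⟨mu, rfl⟩, fun x hx => ?_⟩
      have hx' : x = mu := hx
      rw [hx', ← mul_assoc, ← pow_succ']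
    exact this.symm

end Pool.Agent.H94.Wa
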